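import Pool.Agent.Helper35_XQ.StmtAH
import Pool.Agent.Helper44_BLK.Fin

/-!
Squad XQ, part A5, module FNC: closed form of the nonspanning main term with `η2 = 0`.
-/

set_option autoImplicit false

namespace Pool.Agent.XQ.AH.H15

open MeasureTheory Filter Topology Pool.Agent.H60K Pool.Agent.H38KL Pool.Agent.AEU.H12

theorem third0 (α : ℝ) (h1 : Real.pi / 2 < α) (h3 : α < Real.pi) :
    IntegrableOn (fun τ => Real.sinh ((Real.pi - α) * τ) / Real.sinh (α * τ)
      * Real.cosh (2 * 0 * τ)) (Set.Ioi 0) ∧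
    ∫ τ in Set.Ioi (0 : ℝ), Real.sinh ((Real.pi - α) * τ) / Real.sinh (α * τ)
      * Real.cosh (2 * 0 * τ) = Ceta (Real.pi / α) 0 := by
  have hpi := Real.pi_pos
  have h0 : 0 < α := by linarith
  have key := AEU.H44.int_cosh α (Real.pi - α) (2 * 0) h0 (by
    rw [mul_zero, abs_zero, abs_of_pos (by linarith)]
    linarith)
  refine ⟨key.1, ?_⟩
  rw [key.2]
  have e2 : Real.pi * (Real.pi - α) / α = Real.pi / α * Real.pi - Real.pi := by
    field_simp
  have e3 : Real.pi * (2 * 0) / α = 2 * (Real.pi / α) * 0 := by ring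
  rw [e2, e3, Real.sin_sub_pi, Real.cos_sub_pi]
  unfold Ceta
  rw [mul_div_assoc]
  have e4 : Real.pi / (2 * α) = Real.pi / α / 2 := by field_simp
  rw [e4]
  congr 2

/-- module FNC -/
theorem fnc : AH.FncStatement := by
  intro α d κ hα h3 hd hκ
  have h0 : 0 < α := by have := Real.pi_pos; linarith
  have hpi := Real.pi_pos
  rw [Pool.Agent.H60K.H44.TB_eq d _ 0 κ hd hκ (Pool.Agent.H60K.H44.cos_b_ne h0 h3 (by linarith) hα.ne')]
  unfold FN
  have k1 := third0 α hα h3
  have k2 := Pool.Agent.H60K.H44.second (2 * κ * d) α (by positivity) hα h3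
  have e : ∀ τ : ℝ, Real.sinh ((Real.pi - (α + 0)) * τ) / Real.sinh ((α + 0) * τ)
      * (Real.cosh (2 * 0 * τ) * H38KL.Kit 0 (2 * κ * d) - H38KL.Kit (2 * τ) (2 * κ * d))
      = Real.sinh ((Real.pi - α) * τ) / Real.sinh (α * τ)
        * Real.cosh (2 * 0 * τ) * H38KL.Kit 0 (2 * κ * d)
        - Real.sinh ((Real.pi - α) * τ) / Real.sinh (α * τ)
          * H38KL.Kit (2 * τ) (2 * κ * d) := by
    intro τ
    rw [add_zero]
    ring
  simp only [e]
  rw [integral_sub (k1.1.mul_const _) k2.1, integral_mul_const, k1.2, k2.2]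

end Pool.Agent.XQ.AH.H15
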