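import Pool.Agent.Helper35_XQ.Stmt
import Pool.Agent.Helper44_BLK.Psg

/-!
Squad XQ, part GI, module DSP: large displacement in block `0`.
-/

set_option autoImplicit false

namespace Pool.Agent.XQ.GI.H15D

open MeasureTheory Complex Filter Topology Pool.Agent.H62T Pool.Agent.H60K Pool.Agent.XQ.GI
open scoped ENNReal

theorem nsq (z : ℂ) : ‖z‖ ^ 2 = z.re ^ 2 + z.im ^ 2 := by
  rw [← Complex.normSq_eq_norm_sq, Complex.normSq_apply]
  ring

theorem uI_norm (α : ℝ) (s : Fin 3) : ‖uI α s‖ = 1 := by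
  have h : ‖uI α s‖ ^ 2 = 1 := by
    rw [nsq]
    fin_cases s <;> simp [uI, Real.sin_sq_add_cos_sq]
  have h0 := norm_nonneg (uI α s)
  nlinarith only [h, h0]

theorem ip0 (α : ℝ) (x : ℂ) : ip (uI α 0) x = -Real.sin α * x.re + Real.cos α * x.im := by
  simp [ip, uI]

theorem ip1 (α : ℝ) (x : ℂ) : ip (uI α 1) x = -x.im := by
  simp [ip, uI]

theorem ip2 (α : ℝ) (x : ℂ) : ip (uI α 2) x = Real.sin α * x.re + Real.cos α * x.im := by
  simp [ip, uI]

theorem norm_sub_rf (α b : ℝ) (s : Fin 3) (x : ℂ) :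
    ‖x - rf (uI α) (hI α b) s x‖ = |2 * (ip (uI α s) x - hI α b s)| := by
  unfold rf
  rw [sub_sub_cancel, norm_mul, uI_norm, mul_one, Complex.norm_real, Real.norm_eq_abs]

theorem rf_meas (u : Fin 3 → ℂ) (h : Fin 3 → ℝ) (s : Fin 3) : Measurable (rf u h s) := by
  unfold rf ip
  fun_prop

/-- a folded point far away -/
noncomputable def yy (α b : ℝ) (x : ℂ) : ℂ :=
  if 0 < x.im then rf (uI α) (hI α b) 1 x else
    if 0 ≤ x.re then rf (uI α) (hI α b) 0 x else rf (uI α) (hI α b) 2 x

theorem yy_meas (α b : ℝ) : Measurable (yy α b) := by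
  unfold yy
  exact Measurable.ite (measurableSet_lt measurable_const measurable_im) (rf_meas _ _ _)
    (Measurable.ite (measurableSet_le measurable_const measurable_re) (rf_meas _ _ _)
      (rf_meas _ _ _))

theorem g0_meas (α b : ℝ) : Measurable (g0 α b) := by
  have h : Continuous (g0 α b) := by
    have e : g0 α b = fun x : ℂ => (((x.re - lo α b : ℝ) : ℂ)
        + ((2 * (b * Real.sin α * Real.cos α) - x.im : ℝ) : ℂ) * I) := by
      funext x
      apply Complex.ext
      · simp only [g0, add_re, ofReal_re, mul_re, ofReal_im, I_re, I_im]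
        ring
      · simp only [g0, add_im, ofReal_im, mul_im, ofReal_re, I_re, I_im]
        ring
    rw [e]
    fun_prop
  exact h.measurable

theorem yy_norm (α b : ℝ) (h0 : 0 < α) (h1 : α < Real.pi / 2) (hb : 0 < b) (x : ℂ) :
    4 * Real.cos α ^ 2 * x.im ^ 2 ≤ ‖x - yy α b x‖ ^ 2 := by
  have hc : 0 < Real.cos α := Real.cos_pos_of_mem_Ioo ⟨by linarith, h1⟩
  have hs : 0 < Real.sin α := Real.sin_pos_of_pos_of_lt_pi h0 (by linarith [Real.pi_pos])
  have hc1 : Real.cos α ≤ 1 := Real.cos_le_one α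
  have hh0 : hI α b 0 = b / 2 * Real.sin α := by simp [hI]
  have hh2 : hI α b 2 = b / 2 * Real.sin α := by simp [hI]
  have hh1 : hI α b 1 = 0 := by simp [hI]
  have hbs : 0 < b / 2 * Real.sin α := by positivity
  unfold yy
  split_ifs with h2 h3
  · rw [norm_sub_rf, sq_abs, ip1, hh1]
    have : Real.cos α ^ 2 ≤ 1 := by nlinarith only [hc1, hc]
    nlinarith only [this, sq_nonneg x.im]
  · rw [norm_sub_rf, sq_abs, ip0, hh0]
    push Not at h2
    have e1 : Real.cos α * x.im ≤ 0 := mul_nonpos_of_nonneg_of_nonpos hc.le h2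
    have e2 : 0 ≤ Real.sin α * x.re := mul_nonneg hs.le h3
    nlinarith only [hbs, e1, e2]
  · rw [norm_sub_rf, sq_abs, ip2, hh2]
    push Not at h2 h3
    have e1 : Real.cos α * x.im ≤ 0 := mul_nonpos_of_nonneg_of_nonpos hc.le h2
    have e2 : Real.sin α * x.re ≤ 0 := mul_nonpos_of_nonneg_of_nonpos hs.le h3.le
    nlinarith only [hbs, e1, e2]

/-- the bound of the kernel by the folded point -/
theorem uo_le (hU : UpoStatement) (α b : ℝ) (h0 : 0 < α) (h1 : α < Real.pi / 2) (hb : 0 < b)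
    (a : ℝ) (ha : 0 < a) (k : ℕ) (z x : ℂ) :
    UO (uI α) (hI α b) a k w012 z x ≤ G ((k + 1) * a) (z - yy α b x) := by
  have hc : 0 < Real.cos α := Real.cos_pos_of_mem_Ioo ⟨by linarith, h1⟩
  have hs : 0 < Real.sin α := Real.sin_pos_of_pos_of_lt_pi h0 (by linarith [Real.pi_pos])
  have hbs : 0 < b / 2 * Real.sin α := by positivity
  have key : ∀ s : Fin 3, ip (uI α s) x < hI α b s →
      UO (uI α) (hI α b) a k w012 z x ≤ G ((k + 1) * a) (z - rf (uI α) (hI α b) s x) := by
    intro s hs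
    have h2 := ((hU (uI α) (hI α b) (uI_norm α) a ha k w012).2 z x).2 (sg s)
      (List.singleton_sublist.2 (by fin_cases s <;> simp [w012]))
    have h3 : fo (uI α) (hI α b) (sg s).1 x = rf (uI α) (hI α b) s x := by
      simp only [fo, sg, List.foldr_cons, List.foldr_nil, fo1]
      rw [if_neg (not_le.2 hs)]
    rw [h3] at h2
    exact h2
  unfold yy
  split_ifs with h2 h3
  · apply key
    rw [ip1]
    simp only [hI, if_true]
    linarith
  · apply key
    rw [ip0]
    push Not at h2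
    have e1 : Real.cos α * x.im ≤ 0 := mul_nonpos_of_nonneg_of_nonpos hc.le h2
    have e2 : 0 ≤ Real.sin α * x.re := mul_nonneg hs.le h3
    have e3 : hI α b 0 = b / 2 * Real.sin α := by simp [hI]
    rw [e3]
    linarith
  · apply key
    rw [ip2]
    push Not at h2 h3
    have e1 : Real.cos α * x.im ≤ 0 := mul_nonpos_of_nonneg_of_nonpos hc.le h2
    have e2 : Real.sin α * x.re ≤ 0 := mul_nonpos_of_nonneg_of_nonpos hs.le h3.le
    have e3 : hI α b 2 = b / 2 * Real.sin α := by simp [hI]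
    rw [e3]
    linarith

theorem opp (x y : ℂ) (h : c0 x ≠ c0 y) : x.re ^ 2 ≤ ‖x - y‖ ^ 2 := by
  rw [nsq, Complex.sub_re]
  have h1 : x.re ^ 2 ≤ (x.re - y.re) ^ 2 := by
    unfold c0 at h
    by_cases hx : x.re < 0
    · by_cases hy : y.re < 0
      · rw [if_pos hx, if_pos hy] at h
        exact absurd rfl h
      · push Not at hy
        nlinarith
    · by_cases hy : y.re < 0
      · push Not at hx
        nlinarith
      · rw [if_neg hx, if_neg hy] at h
        exact absurd rfl h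
  nlinarith [sq_nonneg (x - y).im]

/-- the kernel for a large displacement -/
theorem G_disp (a r : ℝ) (ha : 0 < a) (D : ℂ) (hr : r ≤ ‖D‖ ^ 2) :
    G a D ≤ 2 * Real.exp (-(r / (8 * a))) * G (2 * a) D := by
  have hpi := Real.pi_pos
  have e : G a D = 2 * Real.exp (-(‖D‖ ^ 2 / (8 * a))) * G (2 * a) D := by
    unfold G
    have e1 : Real.exp (-(‖D‖ ^ 2 / (8 * a))) * Real.exp (-(‖D‖ ^ 2) / (4 * (2 * a)))
        = Real.exp (-(‖D‖ ^ 2) / (4 * a)) := by
      rw [← Real.exp_add]
      congr 1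
      field_simp
      ring
    rw [← e1]
    field_simp
    try ring
  rw [e]
  have hG : 0 ≤ G (2 * a) D := AEU.H44.G_nonneg (by positivity) D
  have h1 : Real.exp (-(‖D‖ ^ 2 / (8 * a))) ≤ Real.exp (-(r / (8 * a))) := by
    apply Real.exp_le_exp.2
    have : r / (8 * a) ≤ ‖D‖ ^ 2 / (8 * a) := div_le_div_of_nonneg_right hr (by positivity)
    linarith
  exact mul_le_mul_of_nonneg_right (by linarith) hG

theorem G_far (t τ q : ℝ) (z : ℂ) (ht : 0 < t) (h1 : t ≤ τ) (h2 : τ ≤ 2) (hq0 : 0 ≤ q)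
    (hq : 4 * q ≤ ‖z‖ ^ 2) : G τ z ≤ 1 / (4 * Real.pi * t) * Real.exp (-(q / 2)) := by
  have hpi := Real.pi_pos
  have hτ : 0 < τ := by linarith
  unfold G
  rw [div_eq_mul_inv, mul_comm, one_div]
  have e1 : (4 * Real.pi * τ)⁻¹ ≤ (4 * Real.pi * t)⁻¹ := by
    apply inv_anti₀ (by positivity)
    nlinarith only [h1, hpi]
  have e2 : Real.exp (-(‖z‖ ^ 2) / (4 * τ)) ≤ Real.exp (-(q / 2)) := by
    apply Real.exp_le_exp.2
    have : q / 2 ≤ ‖z‖ ^ 2 / (4 * τ) := by
      rw [le_div_iff₀ (by positivity)]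
      nlinarith only [h2, ht, hq, h1]
    have e3 : -(‖z‖ ^ 2) / (4 * τ) = -(‖z‖ ^ 2 / (4 * τ)) := by ring
    rw [e3]
    linarith
  exact mul_le_mul e1 e2 (Real.exp_pos _).le (by positivity)

theorem ck_lint (s r : ℝ) (hs : 0 < s) (hr : 0 < r) (x y y' : ℂ) (c : ℝ) (hc : 0 ≤ c) :
    ∫⁻ z, ENNReal.ofReal (c * (G s (x - z) * G r (z - y) + G s (x - z) * G r (z - y')))
      = ENNReal.ofReal (c * (G (s + r) (x - y) + G (s + r) (x - y'))) := by
  rw [← AEU.H44.G_ck hs hr x y, ← AEU.H44.G_ck hs hr x y', ← integral_add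
    (AEU.H44.G_int2 hs hr x y) (AEU.H44.G_int2 hs hr x y'), ← integral_const_mul]
  rw [ofReal_integral_eq_lintegral_ofReal]
  · exact ((AEU.H44.G_int2 hs hr x y).add (AEU.H44.G_int2 hs hr x y')).const_mul c
  · refine Eventually.of_forall fun z => ?_
    have h1 := AEU.H44.G_nonneg hs (x - z)
    have h2 := AEU.H44.G_nonneg hr (z - y)
    have h3 := AEU.H44.G_nonneg hr (z - y')
    show 0 ≤ c * (G s (x - z) * G r (z - y) + G s (x - z) * G r (z - y'))
    positivity

theorem c0_meas : Measurable c0 := by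
  unfold c0
  exact Measurable.ite (measurableSet_lt measurable_re measurable_const) measurable_const
    measurable_const

theorem G_meas (s : ℝ) : Measurable (G s) := (H41.G_cont s).measurable

theorem dsp (hU : UpoStatement) : DspStatement := by
  intro α b d0 l hα hα2 hb hd0 hl
  have hpi := Real.pi_pos
  have hc : 0 < Real.cos α := Real.cos_pos_of_mem_Ioo ⟨by linarith, hα2⟩
  obtain ⟨n0, hn0⟩ := exists_nat_gt ((l ^ 2 / 4 + 1) * 16 / d0 ^ 2)
  refine ⟨max 2 n0, le_max_left _ _, fun n hn => ?_⟩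
  have hn2 : 2 ≤ n := le_trans (le_max_left _ _) hn
  have hnn0 : n0 ≤ n := le_trans (le_max_right _ _) hn
  have hnr : (2 : ℝ) ≤ n := by exact_mod_cast hn2
  have hnd : l ^ 2 / 4 + 1 ≤ n * d0 ^ 2 / 16 := by
    have h1 : (n0 : ℝ) ≤ n := by exact_mod_cast hnn0
    rw [div_lt_iff₀ (by positivity)] at hn0
    nlinarith only [hn0, h1, sq_nonneg d0]
  set c : ℝ := b * Real.sin α * Real.cos α with hcdef
  set w : ℂ := ⟨0, c⟩ with hw
  set m : ℝ := min (1 / 16) (Real.cos α ^ 2 / 2) with hm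
  have hm0 : 0 < m := lt_min (by norm_num) (by positivity)
  set Kf : ℂ → ℝ := fun x => Real.exp (-m * ‖x - 0‖ ^ 2) + Real.exp (-(1 / 16) * ‖x - w‖ ^ 2)
    with hKf
  have hKi : Integrable Kf :=
    (H41.integrable_gauss m hm0 0).add (H41.integrable_gauss (1 / 16) (by norm_num) w)
  have hK0 : ∀ x, 0 ≤ Kf x := fun x => by
    simp only [hKf]
    positivity
  have hKI : 0 ≤ ∫ x, Kf x := integral_nonneg hK0
  refine ⟨1 / (2 * Real.pi) * ∫ x, Kf x, by positivity, fun t ht ht1 => ?_⟩
  have hn0' : (0 : ℝ) < n := by linarith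
  set a : ℝ := t / n with ha
  have ha0 : 0 < a := by positivity
  have han : (n : ℝ) * a = t := by
    rw [ha]; field_simp
  have hat : a ≤ t / 2 := by
    rw [ha]
    exact div_le_div_of_nonneg_left ht.le (by norm_num) hnr
  set s : ℝ := t - a with hs
  have hs0 : 0 < s := by linarith only [ha0, hat]
  have hks : (((n - 2 : ℕ) : ℝ) + 1) * a = s := by
    rw [Nat.cast_sub hn2, hs]
    push_cast
    linarith only [han]
  set τ : ℝ := 2 * a + s with hτ
  have hτ1 : t ≤ τ := by rw [hτ, hs]; linarith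
  have hτ2 : τ ≤ 2 := by rw [hτ, hs]; linarith
  set E : ℝ := 2 * Real.exp (-(n * d0 ^ 2 / (16 * t))) with hE
  have hE0 : 0 ≤ E := by positivity
  -- the dominating function
  set H : ℂ × ℂ → ℝ := fun p => (E * Real.exp (-(p.1.re ^ 2 / 16))) *
    (G (2 * a) (p.1 - p.2) * G s (p.2 - yy α b p.1)
      + G (2 * a) (p.1 - p.2) * G s (p.2 - g0 α b p.1)) with hH
  have hHm : Measurable H := by
    have m1 : Measurable fun p : ℂ × ℂ => G (2 * a) (p.1 - p.2) :=
      (G_meas _).comp (measurable_fst.sub measurable_snd)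
    have m2 : Measurable fun p : ℂ × ℂ => G s (p.2 - yy α b p.1) :=
      (G_meas _).comp (measurable_snd.sub ((yy_meas α b).comp measurable_fst))
    have m3 : Measurable fun p : ℂ × ℂ => G s (p.2 - g0 α b p.1) :=
      (G_meas _).comp (measurable_snd.sub ((g0_meas α b).comp measurable_fst))
    have m4 : Measurable fun p : ℂ × ℂ => E * Real.exp (-(p.1.re ^ 2 / 16)) := by
      have : Continuous fun p : ℂ × ℂ => E * Real.exp (-(p.1.re ^ 2 / 16)) := by fun_prop
      exact this.measurable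
    exact m4.mul ((m1.mul m2).add (m1.mul m3))
  have hAm : MeasurableSet {p : ℂ × ℂ | d0 ≤ ‖p.2 - p.1‖ ∧ c0 p.1 ≠ c0 p.2} := by
    apply MeasurableSet.inter
    · exact measurableSet_le measurable_const
        (measurable_snd.sub measurable_fst).norm
    · exact (measurableSet_eq_fun (c0_meas.comp measurable_fst)
        (c0_meas.comp measurable_snd)).compl
  have step1 : (∫⁻ p in {p : ℂ × ℂ | d0 ≤ ‖p.2 - p.1‖ ∧ c0 p.1 ≠ c0 p.2},
      ENNReal.ofReal (G a (p.1 - p.2) * (UO (uI α) (hI α b) a (n - 2) w012 p.2 p.1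
        + G (t - a) (p.2 - g0 α b p.1))))
      ≤ ∫⁻ p in {p : ℂ × ℂ | d0 ≤ ‖p.2 - p.1‖ ∧ c0 p.1 ≠ c0 p.2}, ENNReal.ofReal (H p) := by
    apply setLIntegral_mono' hAm
    rintro ⟨x0, x1⟩ ⟨hd, hcc⟩
    simp only at hd hcc
    apply ENNReal.ofReal_le_ofReal
    simp only [hH]
    have u1 : UO (uI α) (hI α b) a (n - 2) w012 x1 x0 ≤ G s (x1 - yy α b x0) := by
      have := uo_le hU α b hα hα2 hb a ha0 (n - 2) x1 x0
      rw [hks] at this
      exact this
    have u0 : 0 ≤ UO (uI α) (hI α b) a (n - 2) w012 x1 x0 :=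
      ((hU (uI α) (hI α b) (uI_norm α) a ha0 (n - 2) w012).2 x1 x0).1
    have hD : (d0 ^ 2 + x0.re ^ 2) / 2 ≤ ‖x0 - x1‖ ^ 2 := by
      have h1 := opp x0 x1 hcc
      have h2 : d0 ^ 2 ≤ ‖x0 - x1‖ ^ 2 := by
        rw [norm_sub_rev] at hd
        exact pow_le_pow_left₀ hd0.le hd 2
      linarith only [h1, h2]
    have hG1 := G_disp a _ ha0 (x0 - x1) hD
    have hG2 : 0 ≤ G (2 * a) (x0 - x1) := AEU.H44.G_nonneg (by positivity) _
    have hG3 : 0 ≤ G s (x1 - yy α b x0) := AEU.H44.G_nonneg hs0 _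
    have hG4 : 0 ≤ G s (x1 - g0 α b x0) := AEU.H44.G_nonneg hs0 _
    have hexp : 2 * Real.exp (-((d0 ^ 2 + x0.re ^ 2) / 2 / (8 * a)))
        ≤ E * Real.exp (-(x0.re ^ 2 / 16)) := by
      rw [hE, mul_assoc, ← Real.exp_add]
      apply mul_le_mul_of_nonneg_left _ (by norm_num)
      apply Real.exp_le_exp.2
      have e1 : (d0 ^ 2 + x0.re ^ 2) / 2 / (8 * a)
          = n * d0 ^ 2 / (16 * t) + x0.re ^ 2 / 16 * (n / t) := by
        rw [ha]
        field_simp
        ring
      rw [e1]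
      have e2 : (1 : ℝ) ≤ n / t := by
        rw [le_div_iff₀ ht]
        linarith only [hnr, ht1]
      have e3 : x0.re ^ 2 / 16 ≤ x0.re ^ 2 / 16 * (n / t) := by
        have : 0 ≤ x0.re ^ 2 / 16 := by positivity
        nlinarith only [e2]
      linarith only [e3]
    calc G a (x0 - x1) * (UO (uI α) (hI α b) a (n - 2) w012 x1 x0 + G (t - a) (x1 - g0 α b x0))
        ≤ (E * Real.exp (-(x0.re ^ 2 / 16)) * G (2 * a) (x0 - x1)) *
          (G s (x1 - yy α b x0) + G s (x1 - g0 α b x0)) := by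
          apply mul_le_mul
          · exact hG1.trans (mul_le_mul_of_nonneg_right hexp hG2)
          · exact add_le_add u1 (le_refl _)
          · exact add_nonneg u0 hG4
          · positivity
      _ = _ := by ring
  refine step1.trans ((setLIntegral_le_lintegral _ _).trans ?_)
  rw [Measure.volume_eq_prod, lintegral_prod _ hHm.ennreal_ofReal.aemeasurable]
  -- inner integral
  have inner : ∀ x0 : ℂ, ∫⁻ x1, ENNReal.ofReal (H (x0, x1)) =
      ENNReal.ofReal ((E * Real.exp (-(x0.re ^ 2 / 16))) *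
        (G τ (x0 - yy α b x0) + G τ (x0 - g0 α b x0))) := by
    intro x0
    simp only [hH]
    exact ck_lint (2 * a) s (by positivity) hs0 x0 (yy α b x0) (g0 α b x0) _ (by positivity)
  have step2 : ∀ x0 : ℂ, (E * Real.exp (-(x0.re ^ 2 / 16))) *
        (G τ (x0 - yy α b x0) + G τ (x0 - g0 α b x0))
      ≤ E * (1 / (4 * Real.pi * t)) * Kf x0 := by
    intro x0
    have b1 : G τ (x0 - yy α b x0)
        ≤ 1 / (4 * Real.pi * t) * Real.exp (-(Real.cos α ^ 2 * x0.im ^ 2 / 2)) := by
      apply G_far t τ _ _ ht hτ1 hτ2 (by positivity)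
      have := yy_norm α b hα hα2 hb x0
      linarith only [this]
    have b2 : G τ (x0 - g0 α b x0)
        ≤ 1 / (4 * Real.pi * t) * Real.exp (-((x0.im - c) ^ 2 / 2)) := by
      apply G_far t τ _ _ ht hτ1 hτ2 (by positivity)
      rw [nsq]
      simp only [g0, Complex.sub_re, Complex.sub_im]
      rw [← hcdef]
      linarith only [sq_nonneg (lo α b)]
    have b3 : Real.exp (-(x0.re ^ 2 / 16)) * Real.exp (-(Real.cos α ^ 2 * x0.im ^ 2 / 2))
        ≤ Real.exp (-m * ‖x0 - 0‖ ^ 2) := by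
      rw [← Real.exp_add]
      apply Real.exp_le_exp.2
      rw [sub_zero, nsq]
      have m1 : m ≤ 1 / 16 := min_le_left _ _
      have m2 : m ≤ Real.cos α ^ 2 / 2 := min_le_right _ _
      linarith only [sq_nonneg x0.re, sq_nonneg x0.im, mul_le_mul_of_nonneg_right m1
        (sq_nonneg x0.re), mul_le_mul_of_nonneg_right m2 (sq_nonneg x0.im)]
    have b4 : Real.exp (-(x0.re ^ 2 / 16)) * Real.exp (-((x0.im - c) ^ 2 / 2))
        ≤ Real.exp (-(1 / 16) * ‖x0 - w‖ ^ 2) := by
      rw [← Real.exp_add]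
      apply Real.exp_le_exp.2
      rw [nsq, Complex.sub_re, Complex.sub_im]
      simp only [hw, sub_zero]
      linarith only [sq_nonneg (x0.im - c)]
    have q0 : 0 ≤ E * (1 / (4 * Real.pi * t)) := by positivity
    have e0 : 0 ≤ E * Real.exp (-(x0.re ^ 2 / 16)) := by positivity
    calc (E * Real.exp (-(x0.re ^ 2 / 16))) *
          (G τ (x0 - yy α b x0) + G τ (x0 - g0 α b x0))
        ≤ (E * Real.exp (-(x0.re ^ 2 / 16))) *
          (1 / (4 * Real.pi * t) * Real.exp (-(Real.cos α ^ 2 * x0.im ^ 2 / 2))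
            + 1 / (4 * Real.pi * t) * Real.exp (-((x0.im - c) ^ 2 / 2))) :=
          mul_le_mul_of_nonneg_left (add_le_add b1 b2) e0
      _ = E * (1 / (4 * Real.pi * t)) *
          (Real.exp (-(x0.re ^ 2 / 16)) * Real.exp (-(Real.cos α ^ 2 * x0.im ^ 2 / 2))
            + Real.exp (-(x0.re ^ 2 / 16)) * Real.exp (-((x0.im - c) ^ 2 / 2))) := by ring
      _ ≤ E * (1 / (4 * Real.pi * t)) * Kf x0 := by
          apply mul_le_mul_of_nonneg_left _ q0
          simp only [hKf]
          exact add_le_add b3 b4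
  calc ∫⁻ x0, ∫⁻ x1, ENNReal.ofReal (H (x0, x1))
      ≤ ∫⁻ x0, ENNReal.ofReal (E * (1 / (4 * Real.pi * t)) * Kf x0) := by
        apply lintegral_mono
        intro x0
        simp only []
        rw [inner]
        exact ENNReal.ofReal_le_ofReal (step2 x0)
    _ = ENNReal.ofReal (E * (1 / (4 * Real.pi * t)) * ∫ x, Kf x) := by
        rw [← integral_const_mul, ofReal_integral_eq_lintegral_ofReal (hKi.const_mul _)]
        refine Eventually.of_forall fun x => ?_
        have := hK0 x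
        show 0 ≤ E * (1 / (4 * Real.pi * t)) * Kf x
        positivity
    _ ≤ _ := by
        apply ENNReal.ofReal_le_ofReal
        have key : E * (1 / (4 * Real.pi * t)) ≤ 1 / (2 * Real.pi)
            * Real.exp (-(l ^ 2 / (4 * t))) := by
          have k1 : Real.exp (-(n * d0 ^ 2 / (16 * t)))
              ≤ Real.exp (-(l ^ 2 / (4 * t))) * t := by
            have k2 : Real.exp (-(n * d0 ^ 2 / (16 * t)))
                ≤ Real.exp (-(l ^ 2 / (4 * t))) * Real.exp (-(1 / t)) := by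
              rw [← Real.exp_add]
              apply Real.exp_le_exp.2
              have : (l ^ 2 / 4 + 1) / t ≤ (n * d0 ^ 2 / 16) / t :=
                div_le_div_of_nonneg_right hnd ht.le
              have e1 : (l ^ 2 / 4 + 1) / t = l ^ 2 / (4 * t) + 1 / t := by
                field_simp
              have e2 : (n * d0 ^ 2 / 16) / t = n * d0 ^ 2 / (16 * t) := by
                field_simp
              rw [e1, e2] at this
              linarith only [this]
            have k3 : Real.exp (-(1 / t)) ≤ t := by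
              rw [Real.exp_neg]
              have k4 : 1 / t ≤ Real.exp (1 / t) := by
                have := Real.add_one_le_exp (1 / t)
                linarith only [this]
              calc (Real.exp (1 / t))⁻¹ ≤ (1 / t)⁻¹ := inv_anti₀ (by positivity) k4
                _ = t := by rw [one_div, inv_inv]
            exact k2.trans (mul_le_mul_of_nonneg_left k3 (Real.exp_pos _).le)
          have k5 : E * (1 / (4 * Real.pi * t)) = 1 / (2 * Real.pi)
              * (Real.exp (-(n * d0 ^ 2 / (16 * t))) / t) := by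
            rw [hE]
            field_simp
            ring
          rw [k5]
          apply mul_le_mul_of_nonneg_left _ (by positivity)
          rw [div_le_iff₀ ht]
          exact k1
        have := mul_le_mul_of_nonneg_right key hKI
        calc E * (1 / (4 * Real.pi * t)) * ∫ x, Kf x
            ≤ 1 / (2 * Real.pi) * Real.exp (-(l ^ 2 / (4 * t))) * ∫ x, Kf x := this
          _ = _ := by ring

end Pool.Agent.XQ.GI.H15D
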