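import Pool.Agent.Helper35_XQ.Stmt
import Pool.Agent.Helper44_BLK.Psg

/-!
Squad XQ, part GI, module KLM: the kernels of the chains converge.
-/

set_option autoImplicit false

namespace Pool.Agent.XQ.GI.H15

open MeasureTheory Complex Filter Topology Pool.Agent.H62T Pool.Agent.H60K Pool.Agent.XQ.GI

/-- the order of labels: `g` reads more than `f` -/
def le (f g : Lb) : Prop := ∀ w, (g w).1 <:+ (f w).1

theorem le_refl (f : Lb) : le f f := fun _ => List.suffix_rfl

theorem le_trans {f g k : Lb} (h1 : le f g) (h2 : le g k) : le f k :=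
  fun w => (h2 w).trans (h1 w)

theorem le_antisymm {f g : Lb} (h1 : le f g) (h2 : le g f) : f = g := by
  funext w
  apply Subtype.ext
  exact (h2 w).eq_of_length_le (h1 w).length_le

/-- closed under reading more -/
def Up (P : Lb → Prop) : Prop := ∀ f g, Rz f → Rz g → le f g → P f → P g

open Classical in
/-- mass of the labels which satisfy `P` -/
noncomputable def SS (u : Fin 3 → ℂ) (h : Fin 3 → ℝ) (m : ℕ) (P : Lb → Prop) (t : ℝ) (x y : ℂ) :
    ℝ := ∑ f : Lb, if P f then KF u h m f t x y else 0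

variable (hK : KfbStatement)
include hK

theorem kf_nonneg (u : Fin 3 → ℂ) (h : Fin 3 → ℝ) (m : ℕ) (f : Lb) {t : ℝ} (ht : 0 < t)
    (x y : ℂ) : 0 ≤ KF u h m f t x y := ((hK u h m).2 t x y ht).1 f

theorem kf_rz (u : Fin 3 → ℂ) (h : Fin 3 → ℝ) (m : ℕ) (f : Lb) {t : ℝ} (ht : 0 < t)
    (x y : ℂ) (hne : KF u h m f t x y ≠ 0) : Rz f := ((hK u h m).2 t x y ht).2.1 f hne

theorem kf_sum (u : Fin 3 → ℂ) (h : Fin 3 → ℝ) (m : ℕ) {t : ℝ} (ht : 0 < t)
    (x y : ℂ) : ∑ f : Lb, KF u h m f t x y = G t (x - y) := ((hK u h m).2 t x y ht).2.2.1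

theorem kf_le (u : Fin 3 → ℂ) (h : Fin 3 → ℝ) (m : ℕ) (f : Lb) {t : ℝ} (ht : 0 < t)
    (x y : ℂ) : KF u h m f t x y ≤ G t (x - y) := by
  rw [← kf_sum hK u h m ht x y]
  exact Finset.single_le_sum (f := fun f => KF u h m f t x y)
    (fun f _ => kf_nonneg hK u h m f ht x y) (Finset.mem_univ f)

theorem kf_meas1 (u : Fin 3 → ℂ) (h : Fin 3 → ℝ) (m : ℕ) (f : Lb) (t : ℝ) (x : ℂ) :
    Measurable fun z => KF u h m f t x z :=
  ((hK u h m).1 f).comp (g := fun p : ℝ × ℂ × ℂ => KF u h m f p.1 p.2.1 p.2.2)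
    (f := fun z : ℂ => (t, x, z)) (by fun_prop)

theorem kf_meas2 (u : Fin 3 → ℂ) (h : Fin 3 → ℝ) (m : ℕ) (f : Lb) (t : ℝ) (y : ℂ) :
    Measurable fun z => KF u h m f t z y :=
  ((hK u h m).1 f).comp (g := fun p : ℝ × ℂ × ℂ => KF u h m f p.1 p.2.1 p.2.2)
    (f := fun z : ℂ => (t, z, y)) (by fun_prop)

theorem kf_int (u : Fin 3 → ℂ) (h : Fin 3 → ℝ) (m m' : ℕ) (f f' : Lb) {t : ℝ} (ht : 0 < t)
    (x y : ℂ) : Integrable fun z => KF u h m f t x z * KF u h m' f' t z y := by
  refine (AEU.H44.G_int2 ht ht x y).mono'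
    ((kf_meas1 hK u h m f t x).mul (kf_meas2 hK u h m' f' t y)).aestronglyMeasurable ?_
  refine Eventually.of_forall fun z => ?_
  have h1 := kf_nonneg hK u h m f ht x z
  have h2 := kf_nonneg hK u h m' f' ht z y
  rw [Real.norm_of_nonneg (mul_nonneg h1 h2)]
  exact mul_le_mul (kf_le hK u h m f ht x z) (kf_le hK u h m' f' ht z y) h2
    (AEU.H44.G_nonneg ht _)

omit hK in
open Classical in
theorem ss_succ' (u : Fin 3 → ℂ) (h : Fin 3 → ℝ) (m : ℕ) (P : Lb → Prop) (t : ℝ) (x y : ℂ) :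
    SS u h (m + 1) P t x y = ∑ f₁ : Lb, ∑ f₂ : Lb, if P (fun w => f₂ (f₁ w)) then
      ∫ z, KF u h m f₁ (t / 2) x z * KF u h m f₂ (t / 2) z y else 0 := by
  unfold SS
  have h1 : ∀ f : Lb, (if P f then KF u h (m + 1) f t x y else 0) =
      ∑ f₁ : Lb, ∑ f₂ : Lb, if f = (fun w => f₂ (f₁ w)) then
        (if P (fun w => f₂ (f₁ w)) then
          ∫ z, KF u h m f₁ (t / 2) x z * KF u h m f₂ (t / 2) z y else 0) else 0 := by
    intro f
    by_cases hP : P f
    · rw [if_pos hP]
      simp only [KF]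
      refine Finset.sum_congr rfl fun f₁ _ => Finset.sum_congr rfl fun f₂ _ => ?_
      by_cases he : f = (fun w => f₂ (f₁ w))
      · rw [if_pos he, if_pos he, if_pos (he ▸ hP)]
      · rw [if_neg he, if_neg he]
    · rw [if_neg hP]
      symm
      refine Finset.sum_eq_zero fun f₁ _ => Finset.sum_eq_zero fun f₂ _ => ?_
      by_cases he : f = (fun w => f₂ (f₁ w))
      · rw [if_pos he, if_neg (he ▸ hP)]
      · rw [if_neg he]
  rw [Finset.sum_congr rfl fun f _ => h1 f, Finset.sum_comm]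
  refine Finset.sum_congr rfl fun f₁ _ => ?_
  rw [Finset.sum_comm]
  refine Finset.sum_congr rfl fun f₂ _ => ?_
  rw [Finset.sum_ite_eq']
  simp

open Classical in
theorem ss_succ (u : Fin 3 → ℂ) (h : Fin 3 → ℝ) (m : ℕ) (P : Lb → Prop) {t : ℝ} (ht : 0 < t)
    (x y : ℂ) :
    SS u h (m + 1) P t x y = ∫ z, ∑ f₁ : Lb, ∑ f₂ : Lb, if P (fun w => f₂ (f₁ w)) then
      KF u h m f₁ (t / 2) x z * KF u h m f₂ (t / 2) z y else 0 := by
  have ht2 : 0 < t / 2 := by linarith
  have hi : ∀ f₁ f₂ : Lb, Integrable fun z => if P (fun w => f₂ (f₁ w)) then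
      KF u h m f₁ (t / 2) x z * KF u h m f₂ (t / 2) z y else 0 := by
    intro f₁ f₂
    by_cases hP : P (fun w => f₂ (f₁ w))
    · simp only [if_pos hP]
      exact kf_int hK u h m m f₁ f₂ ht2 x y
    · simp only [if_neg hP]
      exact integrable_zero _ _ _
  rw [ss_succ', integral_finset_sum _ fun f₁ _ => integrable_finset_sum _ fun f₂ _ => hi f₁ f₂]
  refine Finset.sum_congr rfl fun f₁ _ => ?_
  rw [integral_finset_sum _ fun f₂ _ => hi f₁ f₂]
  refine Finset.sum_congr rfl fun f₂ _ => ?_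
  by_cases hP : P (fun w => f₂ (f₁ w))
  · simp only [if_pos hP]
  · simp only [if_neg hP, integral_zero]

open Classical in
theorem ss_int (u : Fin 3 → ℂ) (h : Fin 3 → ℝ) (m m' : ℕ) (P : Lb → Prop) {t : ℝ} (ht : 0 < t)
    (x y : ℂ) : Integrable fun z => ∑ f₁ : Lb, ∑ f₂ : Lb, if P (fun w => f₂ (f₁ w)) then
      KF u h m f₁ t x z * KF u h m' f₂ t z y else 0 := by
  refine integrable_finset_sum _ fun f₁ _ => integrable_finset_sum _ fun f₂ _ => ?_
  by_cases hP : P (fun w => f₂ (f₁ w))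
  · simp only [if_pos hP]
    exact kf_int hK u h m m' f₁ f₂ ht x y
  · simp only [if_neg hP]
    exact integrable_zero _ _ _

omit hK in
theorem rz_rd (c : Finset (Fin 3)) : Rz (fun w => rd c w) :=
  ⟨[c], by simp, by funext w; simp [run]⟩

variable (hL : LstStatement)
include hL

omit hK in
theorem rd_suffix (c : Finset (Fin 3)) (w : Wd) : (rd c w).1 <:+ w.1 :=
  hL.2.2.1 _ (rz_rd c) w

omit hK in
theorem rd_mono (c : Finset (Fin 3)) (v w : Wd) (hvw : v.1 <:+ w.1) :
    (rd c v).1 <:+ (rd c w).1 :=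
  hL.2.2.2.1 _ (rz_rd c) v w hvw

omit hK in
theorem up_left (P : Lb → Prop) (hP : Up P) (f₂ : Lb) (h2 : Rz f₂) :
    Up (fun f₁ => P (fun w => f₂ (f₁ w))) := by
  intro f g hf hg hfg hPf
  refine hP _ _ (hL.1 f f₂ hf h2) (hL.1 g f₂ hg h2) ?_ hPf
  intro w
  exact hL.2.2.2.1 f₂ h2 _ _ (hfg w)

omit hK in
theorem up_right (P : Lb → Prop) (hP : Up P) (f₁ : Lb) (h1 : Rz f₁) :
    Up (fun f₂ => P (fun w => f₂ (f₁ w))) := by
  intro f g hf hg hfg hPf
  refine hP _ _ (hL.1 f₁ f h1 hf) (hL.1 f₁ g h1 hg) ?_ hPf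
  intro w
  exact hfg (f₁ w)

/-- monotonicity, first step -/
theorem ss_mono0 (u : Fin 3 → ℂ) (h : Fin 3 → ℝ) (P : Lb → Prop) (hP : Up P) {t : ℝ}
    (ht : 0 < t) (x y : ℂ) : SS u h 0 P t x y ≤ SS u h 1 P t x y := by
  classical
  have ht2 : 0 < t / 2 := by linarith
  set f0 : Lb := fun w => rd (lb u h y) (rd (lb u h x) w) with hf0
  have hrz0 : Rz f0 := hL.1 _ _ (rz_rd (lb u h x)) (rz_rd (lb u h y))
  by_cases hP0 : P f0
  · have h1 : SS u h 0 P t x y ≤ G t (x - y) := by
      rw [← kf_sum hK u h 0 ht x y]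
      unfold SS
      refine Finset.sum_le_sum fun f _ => ?_
      split_ifs
      · exact _root_.le_refl _
      · exact kf_nonneg hK u h 0 f ht x y
    refine h1.trans ?_
    rw [← kf_sum hK u h 1 ht x y]
    unfold SS
    refine Finset.sum_le_sum fun f _ => ?_
    by_cases hPf : P f
    · rw [if_pos hPf]
    · rw [if_neg hPf]
      apply le_of_eq
      -- the kernel vanishes
      show KF u h (0 + 1) f t x y = 0
      simp only [KF]
      refine Finset.sum_eq_zero fun f₁ _ => Finset.sum_eq_zero fun f₂ _ => ?_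
      by_cases he : f = (fun w => f₂ (f₁ w))
      · rw [if_pos he]
        have hz : ∀ z : ℂ, (if f₁ = (fun w => rd (lb u h z) (rd (lb u h x) w)) then
            G (t / 2) (x - z) else 0) * (if f₂ = (fun w => rd (lb u h y) (rd (lb u h z) w)) then
            G (t / 2) (z - y) else 0) = 0 := by
          intro z
          by_cases e1 : f₁ = (fun w => rd (lb u h z) (rd (lb u h x) w))
          · by_cases e2 : f₂ = (fun w => rd (lb u h y) (rd (lb u h z) w))
            · exfalso
              apply hPf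
              have r1 : Rz f₁ := by
                rw [e1]; exact hL.1 _ _ (rz_rd (lb u h x)) (rz_rd (lb u h z))
              have r2 : Rz f₂ := by
                rw [e2]; exact hL.1 _ _ (rz_rd (lb u h z)) (rz_rd (lb u h y))
              rw [he]
              refine hP f0 _ hrz0 (hL.1 f₁ f₂ r1 r2) ?_ hP0
              intro w
              simp only [hf0, e1, e2]
              apply rd_mono hL
              exact (rd_suffix hL _ _).trans (rd_suffix hL _ _)
            · rw [if_neg e2, mul_zero]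
          · rw [if_neg e1, zero_mul]
        simp only [hz, integral_zero]
      · rw [if_neg he]
  · have h1 : SS u h 0 P t x y = 0 := by
      unfold SS
      refine Finset.sum_eq_zero fun f _ => ?_
      by_cases hPf : P f
      · rw [if_pos hPf]
        simp only [KF]
        have hne : f ≠ f0 := by
          rintro rfl
          exact hP0 hPf
        rw [if_neg hne]
      · rw [if_neg hPf]
    rw [h1]
    unfold SS
    refine Finset.sum_nonneg fun f _ => ?_
    split_ifs
    · exact kf_nonneg hK u h 1 f ht x y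
    · exact _root_.le_refl _

/-- monotonicity -/
theorem ss_mono (u : Fin 3 → ℂ) (h : Fin 3 → ℝ) (m : ℕ) : ∀ (P : Lb → Prop), Up P → ∀ (t : ℝ),
    0 < t → ∀ x y : ℂ, SS u h m P t x y ≤ SS u h (m + 1) P t x y := by
  classical
  induction m with
  | zero => exact fun P hP t ht x y => ss_mono0 hK hL u h P hP ht x y
  | succ m ih =>
    intro P hP t ht x y
    have ht2 : 0 < t / 2 := by linarith
    rw [ss_succ hK u h m P ht, ss_succ hK u h (m + 1) P ht]
    refine integral_mono (ss_int hK u h m m P ht2 x y)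
      (ss_int hK u h (m + 1) (m + 1) P ht2 x y) ?_
    intro z
    simp only []
    -- first factor
    have s1 : ∑ f₁ : Lb, ∑ f₂ : Lb, (if P (fun w => f₂ (f₁ w)) then
          KF u h m f₁ (t / 2) x z * KF u h m f₂ (t / 2) z y else 0)
        ≤ ∑ f₁ : Lb, ∑ f₂ : Lb, (if P (fun w => f₂ (f₁ w)) then
          KF u h (m + 1) f₁ (t / 2) x z * KF u h m f₂ (t / 2) z y else 0) := by
      rw [Finset.sum_comm, Finset.sum_comm (f := fun f₁ f₂ => if P (fun w => f₂ (f₁ w)) then
          KF u h (m + 1) f₁ (t / 2) x z * KF u h m f₂ (t / 2) z y else 0)]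
      refine Finset.sum_le_sum fun f₂ _ => ?_
      have e : ∀ k : ℕ, ∑ f₁ : Lb, (if P (fun w => f₂ (f₁ w)) then
          KF u h k f₁ (t / 2) x z * KF u h m f₂ (t / 2) z y else 0)
          = SS u h k (fun f₁ => P (fun w => f₂ (f₁ w))) (t / 2) x z
            * KF u h m f₂ (t / 2) z y := by
        intro k
        unfold SS
        rw [Finset.sum_mul]
        refine Finset.sum_congr rfl fun f₁ _ => ?_
        by_cases hp : P (fun w => f₂ (f₁ w))
        · rw [if_pos hp, if_pos hp]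
        · rw [if_neg hp, if_neg hp, zero_mul]
      rw [e, e]
      by_cases h0 : KF u h m f₂ (t / 2) z y = 0
      · rw [h0, mul_zero, mul_zero]
      · exact mul_le_mul_of_nonneg_right
          (ih _ (up_left hL P hP f₂ (kf_rz hK u h m f₂ ht2 z y h0)) (t / 2) ht2 x z)
          (kf_nonneg hK u h m f₂ ht2 z y)
    refine s1.trans ?_
    refine Finset.sum_le_sum fun f₁ _ => ?_
    have e : ∀ k : ℕ, ∑ f₂ : Lb, (if P (fun w => f₂ (f₁ w)) then
        KF u h (m + 1) f₁ (t / 2) x z * KF u h k f₂ (t / 2) z y else 0)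
        = KF u h (m + 1) f₁ (t / 2) x z
          * SS u h k (fun f₂ => P (fun w => f₂ (f₁ w))) (t / 2) z y := by
      intro k
      unfold SS
      rw [Finset.mul_sum]
      refine Finset.sum_congr rfl fun f₂ _ => ?_
      by_cases hp : P (fun w => f₂ (f₁ w))
      · rw [if_pos hp, if_pos hp]
      · rw [if_neg hp, if_neg hp, mul_zero]
    rw [e, e]
    by_cases h0 : KF u h (m + 1) f₁ (t / 2) x z = 0
    · rw [h0, zero_mul, zero_mul]
    · exact mul_le_mul_of_nonneg_left
        (ih _ (up_right hL P hP f₁ (kf_rz hK u h (m + 1) f₁ ht2 x z h0)) (t / 2) ht2 z y)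
        (kf_nonneg hK u h (m + 1) f₁ ht2 x z)

theorem ss_tendsto (u : Fin 3 → ℂ) (h : Fin 3 → ℝ) (P : Lb → Prop) (hP : Up P) {t : ℝ}
    (ht : 0 < t) (x y : ℂ) : ∃ l : ℝ, Tendsto (fun m => SS u h m P t x y) atTop (𝓝 l) := by
  classical
  refine ⟨_, tendsto_atTop_ciSup (monotone_nat_of_le_succ fun m => ss_mono hK hL u h m P hP t ht x y)
    ⟨G t (x - y), ?_⟩⟩
  rintro _ ⟨m, rfl⟩
  rw [← kf_sum hK u h m ht x y]
  unfold SS
  refine Finset.sum_le_sum fun f _ => ?_
  split_ifs
  · exact _root_.le_refl _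
  · exact kf_nonneg hK u h m f ht x y

omit hK in
omit hL in
theorem klm (hL : LstStatement) (hK : KfbStatement) : KlmStatement := by
  classical
  intro u h f t x y ht
  obtain ⟨l1, h1⟩ := ss_tendsto hK hL u h (fun g => le f g)
    (fun g g' _ _ hgg hg => le_trans hg hgg) ht x y
  obtain ⟨l2, h2⟩ := ss_tendsto hK hL u h (fun g => le f g ∧ g ≠ f)
    (fun g g' _ _ hgg hg => ⟨le_trans hg.1 hgg, fun he => hg.2 (by
      subst he
      exact le_antisymm hgg hg.1)⟩) ht x y
  refine ⟨l1 - l2, ?_⟩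
  have e : ∀ m, KF u h m f t x y = SS u h m (fun g => le f g) t x y
      - SS u h m (fun g => le f g ∧ g ≠ f) t x y := by
    intro m
    unfold SS
    rw [← Finset.sum_sub_distrib, Finset.sum_eq_single f]
    · rw [if_pos (le_refl f), if_neg (by simp), sub_zero]
    · intro g _ hg
      by_cases hfg : le f g
      · rw [if_pos hfg, if_pos ⟨hfg, hg⟩, sub_self]
      · rw [if_neg hfg, if_neg (fun hh => hfg hh.1), sub_self]
    · intro hf
      exact absurd (Finset.mem_univ f) hf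
  have := h1.sub h2
  refine this.congr fun m => ?_
  rw [e]

end Pool.Agent.XQ.GI.H15
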