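import Pool.Agent.Helper36_XQ.Stmt4

/-!
Squad XQ, part A4, module PB4: the order of `P3` in G4 is `5`.
-/

set_option autoImplicit false

namespace Pool.Agent.XQ.K4.H15

open MeasureTheory Complex Filter Topology ProbabilityTheory Pool.Agent.H16Iso Pool.Agent.H62T
  Pool.Agent.H16F Pool.Agent.H38KL Pool.Agent.AEU Pool.Agent.XQ.K4
open scoped ENNReal NNReal ComplexConjugate

/-! ### Isometries -/

theorem mp1 (p c : ℂ) (hc : ‖c‖ = 1) : MeasurePreserving (fun w : ℂ => p + c * w) := by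
  have h1 : MeasurePreserving (rotation ⟨c, mem_sphere_zero_iff_norm.2 hc⟩ : ℂ → ℂ) :=
    LinearIsometryEquiv.measurePreserving _
  have h2 := (measurePreserving_add_left (volume : Measure ℂ) p).comp h1
  exact h2

theorem mp2 (p c : ℂ) (hc : ‖c‖ = 1) : MeasurePreserving (fun w : ℂ => p + c * conj w) := by
  have h1 : MeasurePreserving (conjLIE : ℂ → ℂ) := LinearIsometryEquiv.measurePreserving _
  exact (mp1 p c hc).comp h1

theorem ne0 {c : ℂ} (hc : ‖c‖ = 1) : c ≠ 0 := by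
  rintro rfl
  simp at hc

theorem me1 (p c : ℂ) (hc : ‖c‖ = 1) : MeasurableEmbedding (fun w : ℂ => p + c * w) := by
  apply Continuous.measurableEmbedding (by fun_prop)
  intro a b hab
  have h1 : c * a = c * b := add_left_cancel hab
  exact mul_left_cancel₀ (ne0 hc) h1

theorem me2 (p c : ℂ) (hc : ‖c‖ = 1) : MeasurableEmbedding (fun w : ℂ => p + c * conj w) := by
  apply Continuous.measurableEmbedding (by fun_prop)
  intro a b hab
  have h1 : c * conj a = c * conj b := add_left_cancel hab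
  exact star_injective (mul_left_cancel₀ (ne0 hc) h1)

theorem norm_e (θ : ℝ) : ‖exp (θ * I)‖ = 1 := Complex.norm_exp_ofReal_mul_I θ

/-- the first isometry -/
noncomputable def TT (d θ' : ℝ) (w : ℂ) : ℂ := (d : ℂ) - conj (exp (θ' * I) * w)

/-- the second isometry -/
noncomputable def UU (D θ : ℝ) (w : ℂ) : ℂ := exp (θ * I) * ((D : ℂ) - w)

theorem TT_eq (d θ' : ℝ) : TT d θ' = fun w : ℂ => (d : ℂ) + (-conj (exp (θ' * I))) * conj w := by
  funext w
  simp only [TT, map_mul]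
  ring

theorem UU_eq (D θ : ℝ) : UU D θ = fun w : ℂ => exp (θ * I) * D + (-exp (θ * I)) * w := by
  funext w
  simp only [UU]
  ring

theorem TT_mp (d θ' : ℝ) : MeasurePreserving (TT d θ') := by
  rw [TT_eq]
  exact mp2 _ _ (by rw [norm_neg, RCLike.norm_conj, norm_e])

theorem TT_me (d θ' : ℝ) : MeasurableEmbedding (TT d θ') := by
  rw [TT_eq]
  exact me2 _ _ (by rw [norm_neg, RCLike.norm_conj, norm_e])

theorem UU_mp (D θ : ℝ) : MeasurePreserving (UU D θ) := by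
  rw [UU_eq]
  exact mp1 _ _ (by rw [norm_neg, norm_e])

theorem UU_me (D θ : ℝ) : MeasurableEmbedding (UU D θ) := by
  rw [UU_eq]
  exact me1 _ _ (by rw [norm_neg, norm_e])

theorem TT_dist (d θ' : ℝ) (w w' : ℂ) : ‖TT d θ' w - TT d θ' w'‖ = ‖w - w'‖ := by
  have h : TT d θ' w - TT d θ' w' = -conj (exp (θ' * I) * (w - w')) := by
    simp only [TT, map_mul, map_sub]
    ring
  rw [h, norm_neg, RCLike.norm_conj, norm_mul, norm_e, one_mul]

theorem TT_d (d θ' : ℝ) (w : ℂ) : ‖TT d θ' w - d‖ = ‖w‖ := by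
  have h : TT d θ' w - d = -conj (exp (θ' * I) * w) := by
    simp only [TT]
    ring
  rw [h, norm_neg, RCLike.norm_conj, norm_mul, norm_e, one_mul]

theorem UU_norm (D θ : ℝ) (w : ℂ) : ‖UU D θ w‖ = ‖w - D‖ := by
  simp only [UU]
  rw [norm_mul, norm_e, one_mul, norm_sub_rev]

theorem Rct_meas (a b ρ : ℝ) : MeasurableSet (Rct a b ρ) := by
  have h : IsOpen (Rct a b ρ) := by
    have e : Rct a b ρ = {x : ℂ | a < x.re} ∩ {x : ℂ | x.re < b} ∩ {x : ℂ | |x.im| < ρ} := by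
      ext x
      simp only [Rct, Set.mem_setOf_eq, Set.mem_inter_iff]
      tauto
    rw [e]
    refine ((isOpen_lt continuous_const continuous_re).inter
      (isOpen_lt continuous_re continuous_const)).inter
      (isOpen_lt (continuous_abs.comp continuous_im) continuous_const)
  exact h.measurableSet

theorem RcU_meas (a b ρ : ℝ) : MeasurableSet (RcU a b ρ) := by
  have h : IsOpen (RcU a b ρ) := by
    have e : RcU a b ρ = {x : ℂ | a < x.re} ∩ {x : ℂ | x.re < b} ∩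
        ({x : ℂ | 0 < x.im} ∩ {x : ℂ | x.im < ρ}) := by
      ext x
      simp only [RcU, Set.mem_setOf_eq, Set.mem_inter_iff]
      tauto
    rw [e]
    exact ((isOpen_lt continuous_const continuous_re).inter
      (isOpen_lt continuous_re continuous_const)).inter
      ((isOpen_lt continuous_const continuous_im).inter
        (isOpen_lt continuous_im continuous_const))
  exact h.measurableSet

theorem S2_eq (θ D p ρ : ℝ) :
    (fun x : ℂ => exp (θ * I) * x) '' Rct (9 / 20 * p) (11 / 20 * p) ρ =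
      UU D θ '' Rct (D - 11 / 20 * p) (D - 9 / 20 * p) ρ := by
  ext y
  constructor
  · rintro ⟨x, ⟨h1, h2, h3⟩, rfl⟩
    refine ⟨(D : ℂ) - x, ⟨?_, ?_, ?_⟩, ?_⟩
    · rw [Complex.sub_re, Complex.ofReal_re]; linarith
    · rw [Complex.sub_re, Complex.ofReal_re]; linarith
    · rw [Complex.sub_im, Complex.ofReal_im, zero_sub, abs_neg]; exact h3
    · simp only [UU]
      rw [sub_sub_cancel]
  · rintro ⟨x, ⟨h1, h2, h3⟩, rfl⟩
    refine ⟨(D : ℂ) - x, ⟨?_, ?_, ?_⟩, ?_⟩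
    · rw [Complex.sub_re, Complex.ofReal_re]; linarith
    · rw [Complex.sub_re, Complex.ofReal_re]; linarith
    · rw [Complex.sub_im, Complex.ofReal_im, zero_sub, abs_neg]; exact h3
    · rfl

/-! ### The reflection -/

theorem ip_cast (u w : ℂ) : ((2 * ip u w : ℝ) : ℂ) = u * conj w + conj u * w := by
  apply Complex.ext
  · simp only [ip, ofReal_re, add_re, mul_re, conj_re, conj_im]
    ring
  · simp only [ip, ofReal_im, add_im, mul_im, conj_re, conj_im]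
    ring

theorem rf_eq (u : Fin 4 → ℂ) (h : Fin 4 → ℝ) (s : Fin 4) (a y : ℂ) (hu : ‖u s‖ = 1)
    (ha : h s = ip (u s) a) : rf u h s y = a - u s ^ 2 * conj (y - a) := by
  unfold rf
  have h1 : ip (u s) y - h s = ip (u s) (y - a) := by
    rw [ha]
    simp only [ip, sub_re, sub_im]
    ring
  have h2 : u s * conj (u s) = 1 := by
    rw [Complex.mul_conj, Complex.normSq_eq_norm_sq, hu]
    simp
  rw [h1, ip_cast]
  have h3 : (u s * conj (y - a) + conj (u s) * (y - a)) * u s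
      = u s ^ 2 * conj (y - a) + (u s * conj (u s)) * (y - a) := by ring
  rw [h3, h2]
  ring

theorem rf_UU (α α' θ θ' d : ℝ) (a : ℂ) (hy : Hy4 α α' θ θ' d a) (w : ℂ) :
    rf (u4 α α' θ θ') (h4 α' θ θ' d a) 3 (UU (‖a‖ + ‖a - d‖) θ w) = TT d θ' w := by
  obtain ⟨p, hp, hap⟩ := hy.ea
  obtain ⟨p', hp', hap'⟩ := hy.ea'
  have np : ‖a‖ = p := by
    rw [hap, norm_mul, norm_e, mul_one, Complex.norm_real, Real.norm_of_nonneg hp.le]
  have np' : ‖a - d‖ = p' := by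
    have : a - d = -(p' * exp (-(θ' * I))) := by rw [hap']; ring
    rw [this, norm_neg, norm_mul, Complex.norm_real, Real.norm_of_nonneg hp'.le]
    have : ‖exp (-(θ' * I))‖ = 1 := by
      have h1 : (-(θ' * I) : ℂ) = ((-θ' : ℝ) : ℂ) * I := by push_cast; ring
      rw [h1, norm_e]
    rw [this, mul_one]
  have hu3 : u4 α α' θ θ' 3 = exp ((Real.pi / 2 + (θ - θ') / 2 : ℝ) * I) := by
    simp [u4]
  have hh3 : h4 α' θ θ' d a 3 = ip (exp ((Real.pi / 2 + (θ - θ') / 2 : ℝ) * I)) a := by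
    simp [h4]
  have hun : ‖u4 α α' θ θ' 3‖ = 1 := by rw [hu3]; exact norm_e _
  rw [rf_eq _ _ 3 a _ hun (by rw [hh3, hu3]), hu3]
  have hsq : exp ((Real.pi / 2 + (θ - θ') / 2 : ℝ) * I) ^ 2 = -(exp (θ * I) * exp (-(θ' * I))) := by
    rw [← Complex.exp_nat_mul, ← Complex.exp_add]
    have : ((2 : ℕ) : ℂ) * ((Real.pi / 2 + (θ - θ') / 2 : ℝ) * I)
        = Real.pi * I + (θ * I + -(θ' * I)) := by
      push_cast
      ring
    rw [this, Complex.exp_add, Complex.exp_pi_mul_I]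
    ring
  rw [hsq]
  have hce : conj (exp (θ * I)) = exp (-(θ * I)) := by
    rw [← Complex.exp_conj]
    congr 1
    simp
  have hce' : conj (exp (θ' * I)) = exp (-(θ' * I)) := by
    rw [← Complex.exp_conj]
    congr 1
    simp
  have hcan : exp (θ * I) * exp (-(θ * I)) = 1 := by
    rw [← Complex.exp_add]
    simp
  have hya : UU (‖a‖ + ‖a - d‖) θ w - a = exp (θ * I) * ((p' : ℂ) - w) := by
    rw [np, np']
    simp only [UU]
    conv_lhs => rw [hap]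
    push_cast
    ring
  rw [hya, map_mul, map_sub, hce, Complex.conj_ofReal]
  simp only [TT]
  rw [map_mul, hce']
  have e1 : a - -(exp (θ * I) * exp (-(θ' * I))) * (exp (-(θ * I)) * ((p' : ℂ) - conj w))
      = a + (exp (θ * I) * exp (-(θ * I))) * exp (-(θ' * I)) * ((p' : ℂ) - conj w) := by ring
  rw [e1, hcan]
  conv_lhs => rw [hap']
  ring

/-! ### Powers -/

theorem pow_comb (κ : ℝ) (hκ : 0 < κ) : (κ⁻¹ * κ ^ (-(1 / 2) : ℝ) * κ⁻¹) * κ ^ (-(3 / 2) : ℝ) * κ⁻¹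
    = κ ^ (-5 : ℝ) := by
  rw [← Real.rpow_neg_one, ← Real.rpow_add hκ, ← Real.rpow_add hκ, ← Real.rpow_add hκ,
    ← Real.rpow_add hκ]
  norm_num

theorem tri_const (S0 S1 S2 : Set ℂ) (K : ℝ≥0∞) (hK : K ≠ ⊤) (f : ℂ → ℝ≥0∞)
    (hf : Measurable f) (hft : ∀ x, f x ≠ ⊤) (g : ℂ → ℂ → ℝ≥0∞) :
    ∫⁻ x in S0, ∫⁻ z in S1, ∫⁻ y in S2, K * (f x * g z y)
      = K * (∫⁻ x in S0, f x) * ∫⁻ z in S1, ∫⁻ y in S2, g z y := by
  have h1 : ∀ x, ∫⁻ z in S1, ∫⁻ y in S2, K * (f x * g z y)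
      = (K * f x) * ∫⁻ z in S1, ∫⁻ y in S2, g z y := by
    intro x
    have hne : K * f x ≠ ⊤ := ENNReal.mul_ne_top hK (hft x)
    rw [← lintegral_const_mul' _ _ hne]
    congr 1
    funext z
    rw [← lintegral_const_mul' _ _ hne]
    congr 1
    funext y
    rw [mul_assoc]
  simp only [h1]
  rw [lintegral_mul_const _ (hf.const_mul K), lintegral_const_mul _ hf]

theorem pb4 (hC : Cr4Statement) (h1 : In1Statement) (h2 : In2Statement) : Pb4Statement := by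
  intro α α' θ θ' d a hy
  obtain ⟨ρ0, hρ0, hcr⟩ := hC α α' θ θ' d a hy
  refine ⟨ρ0, hρ0, fun ρ hρ hρ1 => ?_⟩
  obtain ⟨c1, C1, κ1, hc1, hC1, hκ1, hb⟩ := hcr ρ hρ hρ1
  have hd := hy.dpos
  have hp : 0 < ‖a‖ := by
    obtain ⟨p, hp, hap⟩ := hy.ea
    rw [hap, norm_mul, norm_e, mul_one, Complex.norm_real, Real.norm_of_nonneg hp.le]
    exact hp
  have hp' : 0 < ‖a - d‖ := by
    obtain ⟨p', hp', hap'⟩ := hy.ea'
    have e1 : a - d = -(p' * exp ((-θ' : ℝ) * I)) := by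
      rw [hap']
      push_cast
      ring
    rw [e1, norm_neg, norm_mul, norm_e, mul_one, Complex.norm_real, Real.norm_of_nonneg hp'.le]
    exact hp'
  set D : ℝ := ‖a‖ + ‖a - d‖ with hD
  obtain ⟨c2, C2, κ2, hc2, hC2, hκ2, hb2⟩ := h1 (9 / 20 * d) (11 / 20 * d) d ρ (by positivity)
    (by linarith) (by linarith) hρ
  obtain ⟨c3, C3, κ3, hc3, hC3, hκ3, hb3⟩ := h2 (9 / 20 * ‖a - d‖) (11 / 20 * ‖a - d‖)
    (D - 11 / 20 * ‖a‖) (D - 9 / 20 * ‖a‖) D ρ (by positivity) (by linarith) (by linarith)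
    (by linarith) (by linarith) hρ
  -- the windows
  have w0 : S4 θ θ' d a ρ 0 = RcU (9 / 20 * d) (11 / 20 * d) ρ := rfl
  have w1 : S4 θ θ' d a ρ 1 = TT d θ' '' Rct (9 / 20 * ‖a - d‖) (11 / 20 * ‖a - d‖) ρ := rfl
  have w2 : S4 θ θ' d a ρ 2 = UU D θ '' Rct (D - 11 / 20 * ‖a‖) (D - 9 / 20 * ‖a‖) ρ := by
    rw [← S2_eq]
    rfl
  have m0 : MeasurableSet (S4 θ θ' d a ρ 0) := by rw [w0]; exact RcU_meas _ _ _
  have m1 : MeasurableSet (S4 θ θ' d a ρ 1) := by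
    rw [w1]; exact (TT_me d θ').measurableSet_image.2 (Rct_meas _ _ _)
  have m2 : MeasurableSet (S4 θ θ' d a ρ 2) := by
    rw [w2]; exact (UU_me D θ).measurableSet_image.2 (Rct_meas _ _ _)
  refine ⟨c1 * c1 * c1 * c2 * c3, C1 * C1 * C1 * C2 * C3, max κ1 (max κ2 κ3), by positivity,
    by positivity, lt_max_of_lt_left hκ1, fun κ hκ => ?_⟩
  have k1 : κ1 ≤ κ := (le_max_left _ _).trans hκ
  have k2 : κ2 ≤ κ := ((le_max_left _ _).trans (le_max_right _ _)).trans hκ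
  have k3 : κ3 ≤ κ := ((le_max_right _ _).trans (le_max_right _ _)).trans hκ
  have hκ0 : 0 < κ := hκ1.trans_le k1
  set pw : ℝ := κ⁻¹ * κ ^ (-(1 / 2) : ℝ) * κ⁻¹ with hpw
  have hq2 : (0 : ℝ) < κ ^ (-(1 / 2) : ℝ) := Real.rpow_pos_of_pos hκ0 _
  have hpw0 : 0 < pw := by positivity
  set f : ℂ → ℝ≥0∞ := fun x => ENNReal.ofReal (x.im ^ 2 * Real.exp (-(κ * (‖x‖ + ‖x - d‖))))
    with hf
  set g : ℂ → ℂ → ℝ≥0∞ := fun z y => ENNReal.ofReal (Real.exp (-(κ * (‖z - d‖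
    + ‖z - rf (u4 α α' θ θ') (h4 α' θ θ' d a) 3 y‖ + ‖y‖)))) with hg
  have hfm : Measurable f := by
    apply Measurable.ennreal_ofReal
    have : Continuous fun x : ℂ => x.im ^ 2 * Real.exp (-(κ * (‖x‖ + ‖x - d‖))) := by fun_prop
    exact this.measurable
  -- product of three bounds
  have prod3 : ∀ (c : ℝ) (x y z : ℂ), 0 < c → 0 < x.im →
      ENNReal.ofReal (c * x.im * κ⁻¹ * Real.exp (-(κ * (‖x - d‖ + ‖z - d‖))))
        * ENNReal.ofReal (c * κ ^ (-(1 / 2) : ℝ) * Real.exp (-(κ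
          * ‖z - rf (u4 α α' θ θ') (h4 α' θ θ' d a) 3 y‖)))
        * ENNReal.ofReal (c * x.im * κ⁻¹ * Real.exp (-(κ * (‖y‖ + ‖x‖))))
      = ENNReal.ofReal (c * c * c * pw) * (f x * g z y) := by
    intro c x y z hc hx
    simp only [hf, hg]
    rw [← ENNReal.ofReal_mul (by positivity), ← ENNReal.ofReal_mul (by positivity),
      ← ENNReal.ofReal_mul (by positivity), ← ENNReal.ofReal_mul (by positivity)]
    congr 1
    have e1 : Real.exp (-(κ * (‖x - d‖ + ‖z - d‖)))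
        * Real.exp (-(κ * ‖z - rf (u4 α α' θ θ') (h4 α' θ θ' d a) 3 y‖))
        * Real.exp (-(κ * (‖y‖ + ‖x‖)))
        = Real.exp (-(κ * (‖x‖ + ‖x - d‖)))
          * Real.exp (-(κ * (‖z - d‖ + ‖z - rf (u4 α α' θ θ') (h4 α' θ θ' d a) 3 y‖
            + ‖y‖))) := by
      rw [← Real.exp_add, ← Real.exp_add, ← Real.exp_add]
      congr 1
      ring
    calc c * x.im * κ⁻¹ * Real.exp (-(κ * (‖x - d‖ + ‖z - d‖)))
          * (c * κ ^ (-(1 / 2) : ℝ)
            * Real.exp (-(κ * ‖z - rf (u4 α α' θ θ') (h4 α' θ θ' d a) 3 y‖)))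
          * (c * x.im * κ⁻¹ * Real.exp (-(κ * (‖y‖ + ‖x‖))))
        = c * c * c * pw * x.im ^ 2 * (Real.exp (-(κ * (‖x - d‖ + ‖z - d‖)))
          * Real.exp (-(κ * ‖z - rf (u4 α α' θ θ') (h4 α' θ θ' d a) 3 y‖))
          * Real.exp (-(κ * (‖y‖ + ‖x‖)))) := by
          rw [hpw]; ring
      _ = _ := by rw [e1]; ring
  have P3e : P3 (u4 α α' θ θ') (h4 α' θ θ' d a) M4 E4 (S4 θ θ' d a ρ) κ
      = ∫⁻ x in S4 θ θ' d a ρ 0, ∫⁻ z in S4 θ θ' d a ρ 1, ∫⁻ y in S4 θ θ' d a ρ 2,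
        Lh (kME (u4 α α' θ θ') (h4 α' θ θ' d a) {2} {1}) κ x z
          * Lh (kME (u4 α α' θ θ') (h4 α' θ θ' d a) {3} ∅) κ z y
          * Lh (kME (u4 α α' θ θ') (h4 α' θ θ' d a) {0} {1}) κ y x := rfl
  -- the two factors
  have F := (hb2 κ k2).2
  rw [← w0] at F
  have Gt : ∫⁻ z in S4 θ θ' d a ρ 1, ∫⁻ y in S4 θ θ' d a ρ 2, g z y
      = ∫⁻ z in Rct (9 / 20 * ‖a - d‖) (11 / 20 * ‖a - d‖) ρ,
        ∫⁻ y in Rct (D - 11 / 20 * ‖a‖) (D - 9 / 20 * ‖a‖) ρ,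
          ENNReal.ofReal (Real.exp (-(κ * (‖z‖ + ‖z - y‖ + ‖y - D‖)))) := by
    rw [w1, ← (TT_mp d θ').setLIntegral_comp_emb (TT_me d θ')]
    congr 1
    funext z
    rw [w2, ← (UU_mp D θ).setLIntegral_comp_emb (UU_me D θ)]
    congr 1
    funext w
    simp only [hg]
    rw [TT_d, hD, rf_UU α α' θ θ' d a hy w, TT_dist, UU_norm]
  have G := hb3 κ k3
  rw [← Gt] at G
  have hexp : Real.exp (-(κ * d)) * Real.exp (-(κ * D)) = Real.exp (-(L4 d a * κ)) := by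
    rw [← Real.exp_add]
    congr 1
    rw [L4, hD]
    ring
  have hq3 : (0 : ℝ) < κ ^ (-(3 / 2) : ℝ) := Real.rpow_pos_of_pos hκ0 _
  have fin3 : ∀ a1 a2 a3 : ℝ, 0 < a1 → 0 < a2 → 0 < a3 →
      ENNReal.ofReal (a1 * a1 * a1 * pw) * ENNReal.ofReal (a2 * κ ^ (-(3 / 2) : ℝ)
        * Real.exp (-(κ * d))) * ENNReal.ofReal (a3 * κ⁻¹ * Real.exp (-(κ * D)))
      = ENNReal.ofReal (a1 * a1 * a1 * a2 * a3 * κ ^ (-5 : ℝ)
        * Real.exp (-(L4 d a * κ))) := by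
    intro a1 a2 a3 ha1 ha2 ha3
    rw [← ENNReal.ofReal_mul (by positivity), ← ENNReal.ofReal_mul (by positivity)]
    congr 1
    rw [← hexp, ← pow_comb κ hκ0, hpw]
    ring
  constructor
  · rw [P3e, ← fin3 c1 c2 c3 hc1 hc2 hc3]
    calc _ ≤ ENNReal.ofReal (c1 * c1 * c1 * pw) * (∫⁻ x in S4 θ θ' d a ρ 0, f x)
            * ∫⁻ z in S4 θ θ' d a ρ 1, ∫⁻ y in S4 θ θ' d a ρ 2, g z y :=
          mul_le_mul' (mul_le_mul_right F.1 _) G.1
      _ = ∫⁻ x in S4 θ θ' d a ρ 0, ∫⁻ z in S4 θ θ' d a ρ 1, ∫⁻ y in S4 θ θ' d a ρ 2,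
            ENNReal.ofReal (c1 * c1 * c1 * pw) * (f x * g z y) :=
          (tri_const _ _ _ _ ENNReal.ofReal_ne_top f hfm
            (fun x => ENNReal.ofReal_ne_top) g).symm
      _ ≤ _ := by
          refine setLIntegral_mono' m0 fun x hx => setLIntegral_mono' m1 fun z hz =>
            setLIntegral_mono' m2 fun y hyy => ?_
          have hxi : 0 < x.im := by
            rw [w0] at hx
            exact hx.2.2.1
          obtain ⟨⟨b1, -⟩, ⟨b2, -⟩, b3, -⟩ := hb κ x y z k1 hx hz hyy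
          rw [← prod3 c1 x y z hc1 hxi]
          exact mul_le_mul' (mul_le_mul' b1 b2) b3
  · rw [P3e, ← fin3 C1 C2 C3 hC1 hC2 hC3]
    calc _ ≤ ∫⁻ x in S4 θ θ' d a ρ 0, ∫⁻ z in S4 θ θ' d a ρ 1, ∫⁻ y in S4 θ θ' d a ρ 2,
            ENNReal.ofReal (C1 * C1 * C1 * pw) * (f x * g z y) := by
          refine setLIntegral_mono' m0 fun x hx => setLIntegral_mono' m1 fun z hz =>
            setLIntegral_mono' m2 fun y hyy => ?_
          have hxi : 0 < x.im := by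
            rw [w0] at hx
            exact hx.2.2.1
          obtain ⟨⟨-, b1⟩, ⟨-, b2⟩, -, b3⟩ := hb κ x y z k1 hx hz hyy
          rw [← prod3 C1 x y z hC1 hxi]
          exact mul_le_mul' (mul_le_mul' b1 b2) b3
      _ = ENNReal.ofReal (C1 * C1 * C1 * pw) * (∫⁻ x in S4 θ θ' d a ρ 0, f x)
            * ∫⁻ z in S4 θ θ' d a ρ 1, ∫⁻ y in S4 θ θ' d a ρ 2, g z y :=
          tri_const _ _ _ _ ENNReal.ofReal_ne_top f hfm
            (fun x => ENNReal.ofReal_ne_top) g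
      _ ≤ _ := mul_le_mul' (mul_le_mul_right F.2 _) G.2

end Pool.Agent.XQ.K4.H15
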